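import Pool.Agent.Lib_MP_6b5565_dg.Alg
import Pool.Agent.Lib_MP_6b5565_dg.ExB

/-!
# Simple closed quasigeodesics have no short exact descriptions by defining polynomials

(1) For every `n` there is a convex polyhedron `I` with integer vertices and at most
`10^6 (12 n + 60)^3` bits which has a simple closed quasigeodesic with at most `3 |V|^2` segments,
but every simple closed quasigeodesic of `I`, in every description by straight segments in faces,
has a segment endpoint with a coordinate `x` such that for all rationals `r` and `s ≠ 0` every
nonzero integer polynomial vanishing at `r + s x` has more than `2^n` nonzero terms.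

(2) So no Turing machine constructs, in polynomial time, for every such polyhedron defining
polynomials of the coordinates (or of rational affine images of the coordinates) of the segment
endpoints of some simple closed quasigeodesic, in any encoding in which a polynomial with `m` nonzero
terms takes at least `m` symbols.
-/

theorem Pool.Agent.Results.MP_6b5565_lc.ExponentialOutput.result :
    (∀ n : ℕ, ∃ I : QGd.IPoly, I.bits ≤ 10 ^ 6 * (12 * n + 60) ^ 3 ∧
      (∃ (N : ℕ) (_ : NeZero N), N ≤ 3 * Fintype.card I.V ^ 2 ∧ Nonempty (QGd.Desc I.poly N)) ∧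
      I.Hard (2 ^ n)) ∧
    (∀ (tm : Turing.FinTM2) (p : Polynomial ℕ) (enc : QGd.IPoly → List (tm.Γ tm.k₀)) (c : ℕ)
      (read : List (tm.Γ tm.k₁) → ℕ → Fin 3 → Polynomial ℤ),
      (∀ I, (enc I).length ≤ (I.bits + 2) ^ c) →
      (∀ w i j, (read w i j).support.card ≤ w.length) →
      ¬ ∀ I : QGd.IPoly, ∃ w,
        Nonempty (Turing.TM2OutputsInTime tm (enc I) (some w) (p.eval (enc I).length)) ∧
        QGd.Correct I read w) := by
  refine ⟨fun n => ?_, fun tm p enc c read h1 h2 => QGd.no_machine tm p enc c h1 read h2⟩
  obtain ⟨I, h1, h2⟩ := QGd.main_exp n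
  exact ⟨I, h1, I.exists_desc, h2⟩
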