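import Pool.Agent.Lib_MP_6b5565_rr.Main

/-!
# Real RAMs need many roots to construct a simple closed quasigeodesic

There are convex polyhedra `I n` with integer vertices, `216 n + 749` vertices and a number of bits
polynomial in `n` such that for every real RAM program `P` there is a constant `c` with: in whatever
way the input is loaded as rational numbers into the real registers, if after `T` steps the real
registers contain all coordinates (or rational affine images of them) of the segment endpoints of
some simple closed quasigeodesic of `I n`, then the product of the degrees of all roots taken so far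
is at least `2^n / c`.

So a real RAM with arbitrary real constants, the four field operations, comparisons, rounding and
indirect addressing, but without roots, never does it for large `n`, whatever the running time; and
with roots of polynomials of bounded degree it needs a number of root operations linear in the
number of vertices.
-/

theorem Pool.Agent.Results.MP_6b5565_lc.RealRam.result :
    ∃ I : ℕ → QGd.IPoly,
      (∀ n, Fintype.card (I n).V = 216 * n + 749 ∧ (I n).bits ≤ 10 ^ 6 * (12 * n + 60) ^ 3) ∧
      ∀ P : List QGr.Ins, ∃ c : ℕ, ∀ load : QGd.IPoly → QGr.St,
        (∀ (Q : QGd.IPoly) (a : ℕ), ∃ q : ℚ, (load Q).R a = (q : ℝ)) →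
        ∀ (n T N : ℕ) [NeZero N] (γ : QGd.Desc (I n).poly N),
          (∀ (i : ZMod N) (j : Fin 3), ∃ (a : ℕ) (r s : ℚ), s ≠ 0 ∧
            (QGr.runFor P (load (I n)) T).R a = (r : ℝ) + (s : ℝ) * γ.x i j) →
          2 ^ n ≤ c * QGr.rootDegree P (load (I n)) T :=
  QGd.real_ram
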