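import Pool.Agent.Lib_MP_6b5565.Final

/-!
# Short simple closed quasigeodesics through at most one vertex

Every convex polyhedron with `n` vertices (given by the half-edge structure of its triangulated
boundary, `QG6b.Poly`) carries a simple closed quasigeodesic which passes through at most one
vertex, crosses every edge at most `n` times and consists of at most `3 n²` segments.
-/

theorem Pool.Agent.Results.MP_6b5565_lc.ShortQuasigeodesic.result (P : QG6b.Poly) :
    P.ShortSCQ :=
  QG6b.short_scq P
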